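import Mathlib
import Pool.Agent.Q72.NB.Main

/-!
# A function of `A^∞(B)` with natural boundary on every affine disc

For every `n > 1` there is a function `f` in `A^∞(B)` (`B` the open unit ball of `ℂⁿ`) such that
`f ∘ Φ` has the unit circle as natural boundary for every nonconstant affine map `Φ : ℂ → ℂⁿ`
that maps the unit circle into the unit sphere.
-/

set_option autoImplicit false

open Filter Topology Metric Set

namespace Pool.Agent.Results.MP_ca9574_an.SmoothNaturalBoundary

/-- `ℂⁿ` with the Euclidean norm. -/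
abbrev Cn (n : ℕ) := EuclideanSpace ℂ (Fin n)

/-- The class `A^∞(B)`: `f` is holomorphic in the open unit ball, continuous on the closed unit
ball, and for every order `k` the `k`-th derivative (whose entries are the partial derivatives of
order `k`) extends continuously from the open ball to the closed ball. -/
structure IsAInfty {n : ℕ} (f : Cn n → ℂ) : Prop where
  holo : DifferentiableOn ℂ f (ball 0 1)
  cont : ContinuousOn f (closedBall 0 1)
  derivs : ∀ k : ℕ, ∃ g : Cn n → ContinuousMultilinearMap ℂ (fun _ : Fin k => Cn n) ℂ,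
    ContinuousOn g (closedBall 0 1) ∧ ∀ z ∈ ball (0 : Cn n) 1, iteratedFDeriv ℂ k f z = g z

/-- The function `g` on the open unit disc has the unit circle as its natural boundary: for no
point `τ` of the circle is there an open disc `D` containing `τ` and a holomorphic function on `D`
that agrees with `g` on the part of `D` in the unit disc. -/
def HasNaturalBoundary (g : ℂ → ℂ) : Prop :=
  ∀ τ : ℂ, ‖τ‖ = 1 → ∀ (c : ℂ) (r : ℝ), τ ∈ ball c r →
    ¬ ∃ h : ℂ → ℂ, DifferentiableOn ℂ h (ball c r) ∧ ∀ l ∈ ball c r ∩ ball 0 1, h l = g l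

/-- Property (NB). -/
def PropertyNB {n : ℕ} (f : Cn n → ℂ) : Prop :=
  ∀ a b : Cn n, b ≠ 0 → (∀ l : ℂ, ‖l‖ = 1 → ‖a + l • b‖ = 1) →
    HasNaturalBoundary (fun l : ℂ => f (a + l • b))

/-- For every `n > 1` some function of `A^∞(B)` has property (NB). -/
theorem result (n : ℕ) (hn : 1 < n) : ∃ f : Cn n → ℂ, IsAInfty f ∧ PropertyNB f := by
  have : Nonempty (Fin n) := ⟨⟨0, by omega⟩⟩
  have hne : Nonempty (sphere (0 : Cn n) 1) := by
    have h1 : Nontrivial (Cn n) := inferInstance
    exact (NormedSpace.sphere_nonempty.2 zero_le_one).to_subtype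
  set d : ℕ → sphere (0 : Cn n) 1 := TopologicalSpace.denseSeq (sphere (0 : Cn n) 1) with hd
  set η : ℕ → Cn n := fun j => (d (Nat.unpair j).1 : Cn n) with hη
  have hη1 : ∀ j, ‖η j‖ = 1 := fun j => mem_sphere_zero_iff_norm.1 (d (Nat.unpair j).1).2
  have hcl : ∀ p : Cn n, ‖p‖ = 1 → ∀ δ : ℝ, 0 < δ → ∀ J : ℕ, ∃ j, J ≤ j ∧ ‖η j - p‖ < δ := by
    intro p hp δ hδ J
    obtain ⟨i, hi⟩ := (TopologicalSpace.denseRange_denseSeq (sphere (0 : Cn n) 1)).exists_dist_lt
      (⟨p, mem_sphere_zero_iff_norm.2 hp⟩ : sphere (0 : Cn n) 1) hδ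
    refine ⟨Nat.pair i J, Nat.right_le_pair i J, ?_⟩
    simp only [hη, Nat.unpair_pair]
    rw [dist_comm, Subtype.dist_eq, dist_eq_norm] at hi
    exact hi
  refine ⟨Q72.NB.f η, ⟨Q72.NB.f_diff hη1, ?_, fun k => ?_⟩, ?_⟩
  · apply continuousOn_tsum (u := Q72.NB.c)
    · intro j
      exact (Q72.NB.t_contDiff j (n := 0)).continuous.continuousOn
    · exact Q72.NB.summable_c
    · intro j x hx
      exact Q72.NB.t_bound0 hη1 j (mem_closedBall_zero_iff.1 hx)
  · exact ⟨_, (Q72.NB.f_smooth hη1 k).1, (Q72.NB.f_smooth hη1 k).2⟩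
  · intro a b hb hab τ hτ c r hτc
    rintro ⟨h, hh, heq⟩
    obtain ⟨R, hR, hRsub⟩ := Metric.isOpen_iff.1 isOpen_ball τ hτc
    exact Q72.NB.no_ext hη1 hcl hb hab hτ hR (hh.mono hRsub)
      (fun l hl hl1 => heq l ⟨hRsub hl, mem_ball_zero_iff.2 hl1⟩)

end Pool.Agent.Results.MP_ca9574_an.SmoothNaturalBoundary
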